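import Mathlib

set_option autoImplicit false

namespace Pool.Agent.Results.MP_81ec8a_co.Counter

/-- A complete digraph on 0..9, followed by ten independent parts of size five, all other arcs forward. -/
def D : Digraph (Fin 60) where
  Adj u v := u ≠ v ∧ (u.1 < 10 ∨ (10 ≤ v.1 ∧ u.1 / 5 < v.1 / 5))

instance : DecidableRel D.Adj := fun _ _ => by unfold D; infer_instance

lemma noPath (f : Fin (20 + 1) → Fin 60) (hf : Function.Injective f)
    (ha : ∀ i : Fin 20, D.Adj (f i.castSucc) (f i.succ)) : False := by
  have mono : ∀ i j : Fin (20 + 1), i < j → 10 ≤ (f i).1 → 10 ≤ (f j).1 ∧ (f i).1 / 5 < (f j).1 / 5 := by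
    intro i j hij hi
    induction j using Fin.induction with
    | zero => exact absurd hij (Fin.not_lt_zero _)
    | succ j ih =>
      have h := (ha j).2
      rcases (Fin.le_castSucc_iff.2 hij).lt_or_eq with h1 | h1
      · have := ih h1
        omega
      · rw [← h1] at h
        omega
  have inj : Function.Injective (fun i : Fin (20 + 1) =>
      (⟨if (f i).1 < 10 then (f i).1 else 8 + (f i).1 / 5, by
        have := (f i).2
        split_ifs <;> omega⟩ : Fin 20)) := by
    intro i j hij
    simp only [Fin.mk.injEq] at hij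
    by_contra hne
    have hne' : (f i).1 ≠ (f j).1 := fun h => hne (hf (Fin.ext h))
    rcases lt_or_gt_of_ne hne with h | h
    · have := mono i j h
      split_ifs at hij <;> omega
    · have := mono j i h
      split_ifs at hij <;> omega
  have := Fintype.card_le_of_injective _ inj
  simp at this

theorem result :
    ¬ (∀ k n : ℕ, 1 ≤ k → 3 * k ≤ n → ∀ G : Digraph (Fin n), (∀ v, ¬ G.Adj v v) →
      (¬ ∃ f : Fin (k + 1) → Fin n, Function.Injective f ∧
        ∀ i : Fin k, G.Adj (f i.castSucc) (f i.succ)) →
      {p : Fin n × Fin n | G.Adj p.1 p.2}.ncard ≤ (SimpleGraph.turanGraph n k).edgeSet.ncard) := by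
  intro h
  have h1 := h 20 60 (by norm_num) (by norm_num) D (fun v hv => hv.1 rfl)
    (fun ⟨f, hf, ha⟩ => noPath f hf ha)
  have e1 : {p : Fin 60 × Fin 60 | D.Adj p.1 p.2}.ncard =
      (Finset.univ.filter (fun p : Fin 60 × Fin 60 => D.Adj p.1 p.2)).card := by
    rw [← Set.ncard_coe_finset]
    exact congrArg Set.ncard (Set.ext fun p => by simp)
  have e2 : (Finset.univ.filter (fun p : Fin 60 × Fin 60 => D.Adj p.1 p.2)).card = 1715 := by
    decide +kernel
  have e3 : (SimpleGraph.turanGraph 60 20).edgeSet.ncard = 1710 := by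
    rw [← SimpleGraph.coe_edgeFinset, Set.ncard_coe_finset, SimpleGraph.card_edgeFinset_turanGraph]
    norm_num
  omega

end Pool.Agent.Results.MP_81ec8a_co.Counter
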